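import Pool.Agent.W312.TP.Stm2
import Pool.Agent.H601R2.PP
import Pool.Agent.H578R2.Med.NPClos

/-!
# Path graphs: the certificates can be checked in polynomial time
-/

set_option autoImplicit false

namespace Pool.Agent.W999.TP

open Pool.Agent.NPC Pool.Agent.H673R2 Pool.Agent.H673R2.Ts Pool.Agent.W312.TP

theorem nodup_iff_zipIdx {β : Type} (l : List β) :
    (∀ x ∈ l.zipIdx, ∀ y ∈ l.zipIdx, x.1 ≠ y.1 ∨ x.2 = y.2) ↔ l.Nodup := by
  rw [List.nodup_iff_injective_getElem]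
  constructor
  · intro h i j hij
    have h1 := h (l[i], i.1) (by
      rw [List.mem_zipIdx_iff_getElem?]; simp) (l[j], j.1) (by
      rw [List.mem_zipIdx_iff_getElem?]; simp)
    simp only at h1 hij
    rcases h1 with h1 | h1
    · exact absurd hij h1
    · exact Fin.ext h1
  · rintro h ⟨x, i⟩ hx ⟨y, j⟩ hy
    rw [List.mem_zipIdx_iff_getElem?] at hx hy
    simp only at hx hy ⊢
    by_cases hxy : x = y
    · right
      obtain ⟨hi, hi'⟩ := List.getElem?_eq_some_iff.1 hx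
      obtain ⟨hj, hj'⟩ := List.getElem?_eq_some_iff.1 hy
      have := @h ⟨i, hi⟩ ⟨j, hj⟩ (by simp only; rw [hi', hj', hxy])
      simpa using this
    · exact Or.inl hxy

theorem pp_nodup {α β : Type} [TEnc α] [TEnc β] {l : α → List β} (hl : Poly l) :
    PP (fun a => (l a).Nodup) := by
  refine PP.congr (p := fun a => ∀ x ∈ (l a).zipIdx, ∀ y ∈ (l a).zipIdx, x.1 ≠ y.1 ∨ x.2 = y.2)
    ?_ (fun a => nodup_iff_zipIdx _)
  refine PP.ball (r := fun a (x : β × ℕ) => ∀ y ∈ (l a).zipIdx, x.1 ≠ y.1 ∨ x.2 = y.2)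
    (Poly.zipIdx hl) ?_
  refine PP.ball (l := fun z : α × (β × ℕ) => (l z.1).zipIdx)
    (r := fun (z : α × (β × ℕ)) (y : β × ℕ) => z.2.1 ≠ y.1 ∨ z.2.2 = y.2)
    (Poly.zipIdx (hl.comp (Poly.fst Poly.id))) ?_
  exact PP.or (PP.ne (Poly.fst (Poly.snd (Poly.fst Poly.id))) (Poly.fst (Poly.snd Poly.id)))
    (PP.eq (Poly.snd (Poly.snd (Poly.fst Poly.id))) (Poly.snd (Poly.snd Poly.id)))

theorem isChain_iff_zip {β : Type} (R : β → β → Prop) : ∀ l : List β,
    (∀ p ∈ l.zip l.tail, R p.1 p.2) ↔ l.IsChain R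
  | [] => by simp
  | [a] => by simp
  | a :: b :: l => by
    have ih := isChain_iff_zip R (b :: l)
    rw [List.isChain_cons_cons, ← ih]
    simp only [List.tail_cons, List.zip_cons_cons, List.forall_mem_cons]

theorem pp_iff {α : Type} [TEnc α] {p q : α → Prop} (hp : PP p) (hq : PP q) :
    PP (fun a => p a ↔ q a) :=
  ((hp.and hq).or (hp.not.and hq.not)).congr fun a => by tauto

abbrev Cert : Type := List ℕ × List ℕ × List (List ℕ)

theorem pp_cert : PP (fun x : Inst × Cert =>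
    x.1.1 ≤ x.1.2.length + 1 ∧ PGCert x.1 x.2.1 x.2.2.1 x.2.2.2) := by
  have hrange : Poly (fun x : Inst × Cert => List.range (min x.1.1 (x.1.2.length + 1))) := by
    refine UPoly.range (UPoly.of_le (n := fun x : Inst × Cert => x.1.2.length + 1) (by fun_prop)
      (UPoly.add (UPoly.length (by fun_prop)) (UPoly.const 1)) (fun a => min_le_right _ _))
  have hrange2 : Poly (fun x : Inst × Cert => List.range x.2.1.length) :=
    UPoly.range (UPoly.length (by fun_prop))
  refine PP.congr (p := fun x : Inst × Cert =>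
    x.1.1 ≤ x.1.2.length + 1 ∧ (0 < x.2.1.length ∧ x.2.1.length ≤ x.1.1 + 1 ∧
      x.2.2.1.length = x.2.1.length ∧ x.2.2.2.length = x.1.1 ∧
      (∀ l ∈ x.2.2.1, l ≤ x.1.1 + 1) ∧ (∀ y ∈ x.2.1, y < x.2.1.length) ∧
      (∀ i ∈ List.range x.2.1.length, ¬ (0 < i) ∨
        x.2.2.1.getD (x.2.1.getD i 0) 0 < x.2.2.1.getD i 0) ∧
      (∀ q ∈ x.2.2.2, q ≠ [] ∧ q.Nodup ∧ (∀ y ∈ q, y < x.2.1.length) ∧
        ∀ p ∈ q.zip q.tail, (p.1 ≠ 0 ∧ p.2 = x.2.1.getD p.1 0) ∨
          (p.2 ≠ 0 ∧ p.1 = x.2.1.getD p.2 0)) ∧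
      ∀ v ∈ List.range (min x.1.1 (x.1.2.length + 1)),
        ∀ u ∈ List.range (min x.1.1 (x.1.2.length + 1)), ¬ (u < v) ∨
          ((u, v) ∈ x.1.2 ↔ ∃ y ∈ x.2.2.2.getD u [], y ∈ x.2.2.2.getD v []))) ?_ ?_
  · refine PP.and (PP.le (by fun_prop) (by fun_prop)) ?_
    refine PP.and (PP.lt (by fun_prop) (by fun_prop)) ?_
    refine PP.and (PP.le (by fun_prop) (by fun_prop)) ?_
    refine PP.and (PP.eq (by fun_prop) (by fun_prop)) ?_
    refine PP.and (PP.eq (by fun_prop) (by fun_prop)) ?_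
    refine PP.and ?_ ?_
    · exact PP.ball (l := fun x : Inst × Cert => x.2.2.1)
        (r := fun (x : Inst × Cert) (l : ℕ) => l ≤ x.1.1 + 1) (by fun_prop)
        (PP.le (by fun_prop) (by fun_prop))
    refine PP.and ?_ ?_
    · exact PP.ball (l := fun x : Inst × Cert => x.2.1)
        (r := fun (x : Inst × Cert) (l : ℕ) => l < x.2.1.length) (by fun_prop)
        (PP.lt (by fun_prop) (by fun_prop))
    refine PP.and ?_ ?_
    · refine PP.ball (l := fun x : Inst × Cert => List.range x.2.1.length)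
        (r := fun (x : Inst × Cert) (i : ℕ) => ¬ (0 < i) ∨
        x.2.2.1.getD (x.2.1.getD i 0) 0 < x.2.2.1.getD i 0) hrange2 ?_
      exact PP.or (PP.not (PP.lt (by fun_prop) (by fun_prop))) (PP.lt (by fun_prop) (by fun_prop))
    refine PP.and ?_ ?_
    · refine PP.ball (l := fun x : Inst × Cert => x.2.2.2)
        (r := fun (x : Inst × Cert) (q : List ℕ) => q ≠ [] ∧ q.Nodup ∧
          (∀ y ∈ q, y < x.2.1.length) ∧
        ∀ p ∈ q.zip q.tail, (p.1 ≠ 0 ∧ p.2 = x.2.1.getD p.1 0) ∨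
          (p.2 ≠ 0 ∧ p.1 = x.2.1.getD p.2 0)) (by fun_prop) ?_
      refine PP.and (PP.ne (by fun_prop) (by fun_prop)) ?_
      refine PP.and (pp_nodup (by fun_prop)) ?_
      refine PP.and ?_ ?_
      · exact PP.ball (l := fun x : (Inst × Cert) × List ℕ => x.2)
          (r := fun (x : (Inst × Cert) × List ℕ) (l : ℕ) => l < x.1.2.1.length) (by fun_prop)
          (PP.lt (by fun_prop) (by fun_prop))
      · refine PP.ball (l := fun x : (Inst × Cert) × List ℕ => x.2.zip x.2.tail)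
          (r := fun (x : (Inst × Cert) × List ℕ) (p : ℕ × ℕ) =>
            (p.1 ≠ 0 ∧ p.2 = x.1.2.1.getD p.1 0) ∨
            (p.2 ≠ 0 ∧ p.1 = x.1.2.1.getD p.2 0)) (by fun_prop) ?_
        exact PP.or (PP.and (PP.ne (by fun_prop) (by fun_prop)) (PP.eq (by fun_prop) (by fun_prop)))
          (PP.and (PP.ne (by fun_prop) (by fun_prop)) (PP.eq (by fun_prop) (by fun_prop)))
    · refine PP.ball (l := fun x : Inst × Cert => List.range (min x.1.1 (x.1.2.length + 1)))
        (r := fun (x : Inst × Cert) (v : ℕ) =>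
          ∀ u ∈ List.range (min x.1.1 (x.1.2.length + 1)), ¬ (u < v) ∨
          ((u, v) ∈ x.1.2 ↔ ∃ y ∈ x.2.2.2.getD u [], y ∈ x.2.2.2.getD v [])) hrange ?_
      refine PP.ball (l := fun x : (Inst × Cert) × ℕ =>
          List.range (min x.1.1.1 (x.1.1.2.length + 1)))
        (r := fun (x : (Inst × Cert) × ℕ) (u : ℕ) => ¬ (u < x.2) ∨
          ((u, x.2) ∈ x.1.1.2 ↔ ∃ y ∈ x.1.2.2.2.getD u [], y ∈ x.1.2.2.2.getD x.2 []))
        (hrange.comp (Poly.fst Poly.id)) ?_
      refine PP.or (PP.not (PP.lt (by fun_prop) (by fun_prop))) ?_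
      refine pp_iff (PP.mem (by fun_prop) (by fun_prop)) ?_
      exact PP.bex (l := fun x : ((Inst × Cert) × ℕ) × ℕ => x.1.1.2.2.2.getD x.2 [])
        (r := fun (x : ((Inst × Cert) × ℕ) × ℕ) (y : ℕ) => y ∈ x.1.1.2.2.2.getD x.1.2 [])
        (by fun_prop) (PP.mem (by fun_prop) (by fun_prop))
  · intro x
    unfold PGCert
    refine and_congr_right fun hle => and_congr Iff.rfl (and_congr Iff.rfl (and_congr Iff.rfl
      (and_congr Iff.rfl (and_congr Iff.rfl (and_congr Iff.rfl (and_congr ?_ (and_congr ?_ ?_)))))))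
    · simp only [List.mem_range]
      exact forall₂_congr fun i _ => by rw [← imp_iff_not_or]
    · refine forall₂_congr fun q _ => and_congr Iff.rfl (and_congr Iff.rfl (and_congr Iff.rfl ?_))
      exact isChain_iff_zip (fun x_1 y => (x_1 ≠ 0 ∧ y = x.2.1.getD x_1 0) ∨
        (y ≠ 0 ∧ x_1 = x.2.1.getD y 0)) q
    · rw [min_eq_left hle]
      simp only [List.mem_range]
      constructor
      · intro h v hv u hu
        rcases h v hv u (by omega) with h1 | h1
        · exact absurd hu h1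
        · exact h1
      · intro h v hv u _
        by_cases huv : u < v
        · exact Or.inr (h v hv u huv)
        · exact Or.inl huv

theorem sz_le_of_le {k s : ℕ} (h : k ≤ s) : sz k ≤ 4 * s + 1 := by
  have h1 := sz_nat_le k
  have h2 := Poly.size_le_self k
  omega

theorem sz_list_le {l : List ℕ} {s : ℕ} (hl : l.length ≤ s) (h : ∀ x ∈ l, x ≤ s) :
    sz l ≤ s * (4 * s + 2) + 1 := by
  have h1 := sz_le_length_mul l (4 * s + 1) (fun a ha => sz_le_of_le (h a ha))
  have h2 : l.length * (4 * s + 1 + 1) ≤ s * (4 * s + 2) := Nat.mul_le_mul hl (by omega)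
  omega

theorem nodup_length_le {l : List ℕ} {N : ℕ} (hn : l.Nodup) (h : ∀ x ∈ l, x < N) :
    l.length ≤ N := by
  rw [← List.toFinset_card_of_nodup hn]
  have : l.toFinset ⊆ Finset.range N := by
    intro x hx
    rw [Finset.mem_range]
    exact h x (List.mem_toFinset.1 hx)
  simpa using Finset.card_le_card this

theorem proof_PGCC : Pool.Agent.W312.TP.PGCC := by
  obtain ⟨b, hb, hb'⟩ := pp_cert
  refine inNPP_of (β := Cert) hb
    (2 * ((Polynomial.X + 1) * (4 * (Polynomial.X + 1) + 2) + 1) +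
      (Polynomial.X + 1) * (((Polynomial.X + 1) * (4 * (Polynomial.X + 1) + 2) + 1) + 1) + 3) ?_
  intro I
  constructor
  · rintro ⟨hle, par, lev, Q, hC⟩
    refine ⟨(par, lev, Q), ?_, (hb' (I, (par, lev, Q))).2 ⟨hle, hC⟩⟩
    obtain ⟨h1, h2, h3, h4, h5, h6, -, h8, -⟩ := hC
    have e1 : I.2.length < sz I.2 := length_lt_sz I.2
    have e2 : sz I = sz I.1 + sz I.2 + 1 := sz_pair I.1 I.2
    have e3 : I.1 ≤ sz I := by omega
    have hp : sz par ≤ (sz I + 1) * (4 * (sz I + 1) + 2) + 1 :=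
      sz_list_le (by omega) (fun x hx => by have := h6 x hx; omega)
    have hl : sz lev ≤ (sz I + 1) * (4 * (sz I + 1) + 2) + 1 :=
      sz_list_le (by omega) (fun x hx => by have := h5 x hx; omega)
    have hQ : sz Q ≤ Q.length * ((sz I + 1) * (4 * (sz I + 1) + 2) + 1 + 1) + 1 := by
      refine sz_le_length_mul Q _ fun q hq => ?_
      obtain ⟨-, g2, g3, -⟩ := h8 q hq
      have g5 := nodup_length_le g2 g3
      exact sz_list_le (by omega) (fun x hx => by have := g3 x hx; omega)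
    have hQ2 : Q.length * ((sz I + 1) * (4 * (sz I + 1) + 2) + 1 + 1) ≤
        (sz I + 1) * ((sz I + 1) * (4 * (sz I + 1) + 2) + 1 + 1) :=
      Nat.mul_le_mul_right _ (by omega)
    simp only [sz_pair, Polynomial.eval_add, Polynomial.eval_mul, Polynomial.eval_X,
      Polynomial.eval_one, Polynomial.eval_ofNat]
    omega
  · rintro ⟨⟨par, lev, Q⟩, -, hR⟩
    obtain ⟨g1, g2⟩ := (hb' (I, (par, lev, Q))).1 hR
    exact ⟨g1, par, lev, Q, g2⟩

end Pool.Agent.W999.TP
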